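import Mathlib
import Pool.Agent.W237.RK.GalGen

set_option autoImplicit false
set_option linter.unusedSectionVars false

/-!
# Finite normal extensions, general version
-/

namespace Pool.Agent.W669.RK

open Polynomial
open Pool.Agent.W237.RK

variable {k Ω : Type*} [Field k] [Field Ω] [Algebra k Ω] [IsAlgClosed Ω] [Algebra.IsAlgebraic k Ω]
  [CharZero k]

/-- a finite normal field containing a finite field and a finite set -/
theorem exists_big_gen (E : IntermediateField k Ω) (hE : FiniteDimensional k E) (s : Finset Ω) :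
    ∃ M : IntermediateField k Ω, FiniteDimensional k M ∧ (∀ σ : Ω ≃ₐ[k] Ω, ∀ x ∈ M, σ x ∈ M) ∧
      Normal k M ∧ E ≤ M ∧ ∀ x ∈ s, x ∈ M := by
  have hs : FiniteDimensional k (IntermediateField.adjoin k (s : Set Ω)) := by
    have : Finite (s : Set Ω) := s.finite_toSet
    exact IntermediateField.finiteDimensional_adjoin
      (fun x _ => (Algebra.IsAlgebraic.isAlgebraic (R := k) x).isIntegral)
  set L : IntermediateField k Ω := E ⊔ IntermediateField.adjoin k (s : Set Ω) with hL
  have hLf : FiniteDimensional k L := IntermediateField.finiteDimensional_sup _ _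
  have hNQ : Normal k Ω := by
    have : IsAlgClosure k Ω := ⟨inferInstance, inferInstance⟩
    exact IsAlgClosure.normal k Ω
  set M : IntermediateField k Ω := IntermediateField.normalClosure k L Ω with hM
  have hMf : FiniteDimensional k M := normalClosure.is_finiteDimensional k L Ω
  have hMn : Normal k M := normalClosure.normal k L Ω
  have hLM : L ≤ M := IntermediateField.le_normalClosure L
  refine ⟨M, hMf, ?_, hMn, le_sup_left.trans hLM, ?_⟩
  · intro σ x hx
    have h1 := IntermediateField.normal_iff_forall_map_le'.mp hMn σ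
    exact h1 ⟨x, hx, rfl⟩
  · intro x hx
    exact hLM ((le_sup_right : _ ≤ L) (IntermediateField.subset_adjoin _ _ hx))

/-- the automorphisms of `M` fixing `K` are numerous -/
theorem card_fix_gen (K M : IntermediateField k Ω) (hMf : FiniteDimensional k M)
    (hMn : Normal k M) (hKM : K ≤ M) :
    ∃ T : Finset (M ≃ₐ[k] M), Module.finrank k M = Module.finrank k K * T.card ∧
      ∀ τ ∈ T, ∃ t : Ω ≃ₐ[k] Ω, GFix K t ∧ ∀ x : M, t (x : Ω) = ((τ x : M) : Ω) := by
  classical
  have hNQ : Normal k Ω := by
    have : IsAlgClosure k Ω := ⟨inferInstance, inferInstance⟩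
    exact IsAlgClosure.normal k Ω
  have hG : IsGalois k M := ⟨⟩
  set K' := IntermediateField.restrict hKM with hK'
  have hfin : Fintype K'.fixingSubgroup := Fintype.ofFinite _
  have hcard := IsGalois.card_fixingSubgroup_eq_finrank K'
  refine ⟨(K'.fixingSubgroup : Set (M ≃ₐ[k] M)).toFinite.toFinset, ?_, ?_⟩
  · have h1 : ((K'.fixingSubgroup : Set (M ≃ₐ[k] M)).toFinite.toFinset).card =
        Nat.card K'.fixingSubgroup := by
      rw [← Set.ncard_eq_toFinset_card _ _]
      exact (Nat.card_coe_set_eq _).symm
    have h2 : Module.finrank k K' = Module.finrank k K :=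
      (IntermediateField.restrictAlgEquiv hKM).toLinearEquiv.finrank_eq.symm
    rw [h1, hcard, ← h2]
    exact (Module.finrank_mul_finrank k K' M).symm
  · intro τ hτ
    rw [Set.Finite.mem_toFinset] at hτ
    refine ⟨τ.liftNormal Ω, ?_, ?_⟩
    · intro x hx
      have h1 := AlgEquiv.liftNormal_commutes τ Ω ⟨x, hKM hx⟩
      have h2 := (IntermediateField.mem_fixingSubgroup_iff K' τ).mp hτ ⟨x, hKM hx⟩
        ((IntermediateField.mem_restrict hKM _).mpr hx)
      rw [h2] at h1
      exact h1
    · intro x
      exact AlgEquiv.liftNormal_commutes τ Ω x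

end Pool.Agent.W669.RK
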