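import Mathlib
import Pool.Agent.W237.RK.Defs
import Pool.Agent.H58R.Loc

set_option autoImplicit false

/-!
# Kronecker: an algebraic number of height zero is a root of unity
-/

namespace Pool.Agent.W669.RK

open Polynomial
open Pool.Agent.W237.RK
open Pool.Agent.H58P (Qb ht)

/-- Kronecker -/
theorem tor_of_ht_zero (x : Qb) (hx : x ≠ 0) (h : ht x = 0) : Tor x := by
  have hint : IsIntegral ℚ x := ((AlgebraicClosure.isAlgebraic ℚ).isAlgebraic x).isIntegral
  set D := (minpoly ℚ x).natDegree with hD
  have hfin := Pool.Agent.H58W.northcott D 0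
  have hmem : ∀ n : ℕ, x ^ n ∈ {α : Qb | (minpoly ℚ α).natDegree ≤ D ∧
      Pool.Agent.Helper259.AbsHt.absLogHeight ![1, α] ≤ 0} := by
    intro n
    constructor
    · have h1 : x ^ n ∈ IntermediateField.adjoin ℚ {x} :=
        pow_mem (IntermediateField.mem_adjoin_simple_self ℚ x) n
      have hfd : FiniteDimensional ℚ (IntermediateField.adjoin ℚ {x}) :=
        IntermediateField.adjoin.finiteDimensional hint
      have h2 : (minpoly ℚ (⟨x ^ n, h1⟩ : IntermediateField.adjoin ℚ {x})) = minpoly ℚ (x ^ n) :=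
        minpoly.algebraMap_eq (algebraMap (IntermediateField.adjoin ℚ {x}) Qb).injective
          (⟨x ^ n, h1⟩ : IntermediateField.adjoin ℚ {x}) |>.symm
      rw [← h2]
      calc _ ≤ Module.finrank ℚ (IntermediateField.adjoin ℚ {x}) := minpoly.natDegree_le _
        _ = D := IntermediateField.adjoin.finrank hint
    · show ht (x ^ n) ≤ 0
      rw [Pool.Agent.H58B.ht_pow, h, mul_zero]
  have hni : ¬ Function.Injective (fun n : ℕ => x ^ n) := by
    intro hinj
    exact Set.infinite_of_injective_forall_mem hinj hmem hfin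
  rw [Function.Injective] at hni
  push Not at hni
  obtain ⟨a, b, hab, hne⟩ := hni
  rcases lt_or_gt_of_ne hne with hlt | hlt
  · refine ⟨b - a, by omega, ?_⟩
    have : x ^ a * x ^ (b - a) = x ^ a * 1 := by
      rw [← pow_add, mul_one, Nat.add_sub_cancel' hlt.le]
      exact hab.symm
    exact mul_left_cancel₀ (pow_ne_zero _ hx) this
  · refine ⟨a - b, by omega, ?_⟩
    have : x ^ b * x ^ (a - b) = x ^ b * 1 := by
      rw [← pow_add, mul_one, Nat.add_sub_cancel' hlt.le]
      exact hab
    exact mul_left_cancel₀ (pow_ne_zero _ hx) this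

end Pool.Agent.W669.RK
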