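import Mathlib
import Pool.Agent.W237.RK.LGal

set_option autoImplicit false

/-!
# Ultrametric estimates: powers of sums, coefficients of products
-/

namespace Pool.Agent.W669.RK

open Polynomial
open Pool.Agent.W237.RK

variable {p : ℕ} [Fact p.Prime]

lemma norm_add_le_of {x y : Om p} {R : ℝ} (hx : ‖x‖ ≤ R) (hy : ‖y‖ ≤ R) : ‖x + y‖ ≤ R :=
  (IsUltrametricDist.norm_add_le_max x y).trans (max_le hx hy)

lemma norm_sub_le_of {x y : Om p} {R : ℝ} (hx : ‖x‖ ≤ R) (hy : ‖y‖ ≤ R) : ‖x - y‖ ≤ R := by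
  rw [sub_eq_add_neg]
  exact norm_add_le_of hx (by rwa [norm_neg])

lemma norm_sum_le_of {ι : Type*} (s : Finset ι) (f : ι → Om p) {R : ℝ} (hR : 0 ≤ R)
    (h : ∀ i ∈ s, ‖f i‖ ≤ R) : ‖∑ i ∈ s, f i‖ ≤ R :=
  IsUltrametricDist.norm_sum_le_of_forall_le_of_nonneg hR h

lemma norm_natCast_le_one (n : ℕ) : ‖(n : Om p)‖ ≤ 1 := by
  induction n with
  | zero => simp
  | succ n ih =>
    rw [Nat.cast_succ]
    exact norm_add_le_of ih (by simp)

/-- freshman's dream, two terms -/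
lemma norm_add_pow_sub (x y : Om p) {R : ℝ} (hR : 0 ≤ R) (hx : ‖x‖ ≤ R) (hy : ‖y‖ ≤ R) :
    ‖(x + y) ^ p - (x ^ p + y ^ p)‖ ≤ (p : ℝ)⁻¹ * R ^ p := by
  have hp : p.Prime := Fact.out
  have hp0 : 0 < p := hp.pos
  have hpR : (0 : ℝ) < p := by exact_mod_cast hp0
  have h1 : (x + y) ^ p - (x ^ p + y ^ p) =
      ∑ m ∈ Finset.Ico 1 p, x ^ m * y ^ (p - m) * (p.choose m : Om p) := by
    rw [add_pow, Finset.sum_range_succ, Finset.range_eq_Ico,
      Finset.sum_eq_sum_Ico_succ_bot hp0]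
    simp
    ring
  rw [h1]
  apply norm_sum_le_of
  · positivity
  · intro m hm
    rw [Finset.mem_Ico] at hm
    obtain ⟨c, hc⟩ := hp.dvd_choose_self (by omega : m ≠ 0) hm.2
    rw [hc, Nat.cast_mul, norm_mul, norm_mul, norm_mul, norm_pow, norm_pow, norm_p]
    have e1 : ‖x‖ ^ m ≤ R ^ m := pow_le_pow_left₀ (norm_nonneg _) hx _
    have e2 : ‖y‖ ^ (p - m) ≤ R ^ (p - m) := pow_le_pow_left₀ (norm_nonneg _) hy _
    have e3 : ‖(c : Om p)‖ ≤ 1 := norm_natCast_le_one c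
    calc ‖x‖ ^ m * ‖y‖ ^ (p - m) * ((p : ℝ)⁻¹ * ‖(c : Om p)‖)
        ≤ R ^ m * R ^ (p - m) * ((p : ℝ)⁻¹ * 1) := by gcongr
      _ = (p : ℝ)⁻¹ * R ^ p := by
          rw [← pow_add, Nat.add_sub_cancel' hm.2.le]
          ring

/-- freshman's dream, `p`-th powers of sums -/
lemma norm_sum_pow_sub {ι : Type*} (s : Finset ι) (f : ι → Om p) {R : ℝ} (hR : 0 ≤ R)
    (h : ∀ i ∈ s, ‖f i‖ ≤ R) :
    ‖(∑ i ∈ s, f i) ^ p - ∑ i ∈ s, f i ^ p‖ ≤ (p : ℝ)⁻¹ * R ^ p := by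
  classical
  have hp : p.Prime := Fact.out
  induction s using Finset.induction_on with
  | empty =>
    simp only [Finset.sum_empty, sub_zero]
    rw [zero_pow hp.ne_zero, norm_zero]
    positivity
  | insert a s ha ih =>
    rw [Finset.sum_insert ha, Finset.sum_insert ha]
    have h1 := ih (fun i hi => h i (Finset.mem_insert_of_mem hi))
    have h2 := norm_add_pow_sub (f a) (∑ i ∈ s, f i) hR (h a (Finset.mem_insert_self a s))
      (norm_sum_le_of s f hR (fun i hi => h i (Finset.mem_insert_of_mem hi)))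
    have e : (f a + ∑ i ∈ s, f i) ^ p - (f a ^ p + ∑ i ∈ s, f i ^ p) =
        ((f a + ∑ i ∈ s, f i) ^ p - (f a ^ p + (∑ i ∈ s, f i) ^ p)) +
        ((∑ i ∈ s, f i) ^ p - ∑ i ∈ s, f i ^ p) := by ring
    rw [e]
    exact norm_add_le_of h2 h1

lemma norm_pow_sub_pow (x y : Om p) {R : ℝ} (hR : 0 ≤ R) (hx : ‖x‖ ≤ R) (hy : ‖y‖ ≤ R)
    (n : ℕ) : ‖x ^ (n + 1) - y ^ (n + 1)‖ ≤ ‖x - y‖ * R ^ n := by
  have h := (Commute.all x y).geom_sum₂_mul (n + 1)
  rw [← h, norm_mul, mul_comm]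
  apply mul_le_mul_of_nonneg_left _ (norm_nonneg _)
  apply norm_sum_le_of
  · positivity
  · intro i hi
    rw [Finset.mem_range] at hi
    rw [norm_mul, norm_pow, norm_pow]
    calc ‖x‖ ^ i * ‖y‖ ^ (n + 1 - 1 - i) ≤ R ^ i * R ^ (n + 1 - 1 - i) := by
          gcongr
      _ = R ^ n := by rw [← pow_add]; congr 1; omega

/-- freshman's dream, `p ^ a`-th powers of sums -/
lemma norm_sum_pow_pow_sub {ι : Type*} (s : Finset ι) (f : ι → Om p) {R : ℝ} (hR : 0 ≤ R)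
    (h : ∀ i ∈ s, ‖f i‖ ≤ R) (a : ℕ) :
    ‖(∑ i ∈ s, f i) ^ (p ^ a) - ∑ i ∈ s, f i ^ (p ^ a)‖ ≤ (p : ℝ)⁻¹ * R ^ (p ^ a) := by
  have hp : p.Prime := Fact.out
  have hpR : (0 : ℝ) < p := by exact_mod_cast hp.pos
  induction a with
  | zero =>
    simp only [pow_zero, pow_one, sub_self, norm_zero]
    positivity
  | succ a ih =>
    have hs : ‖(∑ i ∈ s, f i) ^ (p ^ a)‖ ≤ R ^ (p ^ a) := by
      rw [norm_pow]
      exact pow_le_pow_left₀ (norm_nonneg _) (norm_sum_le_of s f hR h) _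
    have ht : ∀ i ∈ s, ‖f i ^ (p ^ a)‖ ≤ R ^ (p ^ a) := fun i hi => by
      rw [norm_pow]
      exact pow_le_pow_left₀ (norm_nonneg _) (h i hi) _
    have h1 := norm_sum_pow_sub s (fun i => f i ^ (p ^ a)) (R := R ^ (p ^ a)) (by positivity) ht
    have h2 := norm_pow_sub_pow ((∑ i ∈ s, f i) ^ (p ^ a)) (∑ i ∈ s, f i ^ (p ^ a))
      (R := R ^ (p ^ a)) (by positivity) hs (norm_sum_le_of s _ (by positivity) ht) (p - 1)
    rw [Nat.sub_add_cancel hp.one_le] at h2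
    have e : (∑ i ∈ s, f i) ^ (p ^ (a + 1)) - ∑ i ∈ s, f i ^ (p ^ (a + 1)) =
        (((∑ i ∈ s, f i) ^ (p ^ a)) ^ p - (∑ i ∈ s, f i ^ (p ^ a)) ^ p) +
        ((∑ i ∈ s, f i ^ (p ^ a)) ^ p - ∑ i ∈ s, (f i ^ (p ^ a)) ^ p) := by
      simp only [← pow_mul, ← pow_succ]
      ring
    rw [e]
    have e2 : R ^ p ^ (a + 1) = (R ^ (p ^ a)) ^ p := by rw [← pow_mul, ← pow_succ]
    rw [e2]
    apply norm_add_le_of _ h1
    refine h2.trans ?_
    calc _ ≤ ((p : ℝ)⁻¹ * R ^ (p ^ a)) * (R ^ (p ^ a)) ^ (p - 1) := by gcongr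
      _ = (p : ℝ)⁻¹ * (R ^ (p ^ a)) ^ (p - 1 + 1) := by rw [pow_succ]; ring
      _ = _ := by rw [Nat.sub_add_cancel hp.one_le]

/-- coefficients of a product of linear factors -/
lemma norm_coeff_prod_le {ι : Type*} (s : Finset ι) (f : ι → Om p) :
    ∀ j, ‖(∏ i ∈ s, (X - C (f i))).coeff j‖ ≤ ∏ i ∈ s, max 1 ‖f i‖ := by
  classical
  induction s using Finset.induction_on with
  | empty =>
    intro j
    rw [Finset.prod_empty, Finset.prod_empty, coeff_one]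
    split_ifs <;> simp
  | insert a s ha ih =>
    intro j
    rw [Finset.prod_insert ha, Finset.prod_insert ha, sub_mul, coeff_sub, coeff_C_mul]
    have hpos : 0 ≤ ∏ i ∈ s, max 1 ‖f i‖ :=
      Finset.prod_nonneg (fun i _ => le_trans zero_le_one (le_max_left _ _))
    apply norm_sub_le_of
    · have h1 : ‖(X * ∏ i ∈ s, (X - C (f i))).coeff j‖ ≤ ∏ i ∈ s, max 1 ‖f i‖ := by
        rcases j with _ | j
        · rw [mul_coeff_zero, coeff_X_zero, zero_mul, norm_zero]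
          exact hpos
        · rw [coeff_X_mul]
          exact ih j
      exact h1.trans (le_mul_of_one_le_left hpos (le_max_left _ _))
    · rw [norm_mul]
      exact mul_le_mul (le_max_right _ _) (ih j) (norm_nonneg _)
        (le_trans zero_le_one (le_max_left _ _))

lemma max_one_pow (r : ℝ) (hr : 0 ≤ r) (n : ℕ) : (max 1 r) ^ n = max 1 (r ^ n) := by
  rcases le_total r 1 with h | h
  · rw [max_eq_left h, one_pow, max_eq_left (pow_le_one₀ hr h)]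
  · rw [max_eq_right h, max_eq_right (one_le_pow₀ h)]

end Pool.Agent.W669.RK
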