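import Mathlib
import Pool.Agent.W237.RK.Defs
import Pool.Agent.W237.RK.Gal
import Pool.Agent.W669.RK.LocG
import Pool.Agent.W669.RK.Kro
import Pool.Agent.W669.RK.Big

set_option autoImplicit false

/-!
# The Frobenius lemma
-/

namespace Pool.Agent.W669.RK

open Polynomial
open Pool.Agent.W237.RK
open Pool.Agent.H58P (Qb ht)
open Pool.Agent.H58R (ht_nonneg)
open Pool.Agent.H58B (ht_conj ht_pow)

/-- a finite normal field containing a finite field and a finite set, and the automorphisms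
fixing a subfield -/
theorem exists_big (K E : GF) (hE : FiniteDimensional ℚ E) (hKE : K ≤ E) (s : Finset Qb) :
    ∃ M : GF, FiniteDimensional ℚ M ∧ (∀ σ : Aut, ∀ x ∈ M, σ x ∈ M) ∧ E ≤ M ∧
      (∀ x ∈ s, x ∈ M) ∧
      ∃ T : Finset (M ≃ₐ[ℚ] M), Module.finrank ℚ M = Module.finrank ℚ K * T.card ∧
        ∀ τ ∈ T, ∃ t : Aut, Fix K t ∧ ∀ x : M, t (x : Qb) = ((τ x : M) : Qb) := by
  classical
  obtain ⟨M, h1, h2, h3, h4, h5⟩ := exists_big_gen (k := ℚ) (Ω := Qb) E hE s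
  obtain ⟨T, hT1, hT2⟩ := card_fix_gen (k := ℚ) (Ω := Qb) K M h1 h3 (hKE.trans h4)
  refine ⟨M, h1, h2, h4, h5, ?_⟩
  let e : @AlgEquiv ℚ M M _ _ _ M.algebra' M.algebra' → (M ≃ₐ[ℚ] M) := fun τ =>
    AlgEquiv.ofRingEquiv (f := (τ : M ≃+* M)) (fun r => by simp)
  have he : Function.Injective e := by
    intro τ τ' h
    ext x
    have h6 : (e τ) x = (e τ') x := by rw [h]
    have h7 : ((e τ x : M) : Qb) = ((e τ' x : M) : Qb) := by rw [h6]
    exact h7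
  refine ⟨T.map ⟨e, he⟩, ?_, ?_⟩
  · rw [Finset.card_map]
    exact hT1
  · intro τ hτ
    rw [Finset.mem_map] at hτ
    obtain ⟨τ', hτ', rfl⟩ := hτ
    exact hT2 τ' hτ'

/-- the product estimate -/
lemma prod_bound {p : ℕ} [Fact p.Prime] (Y : Finset Qb) (u : PadicAlgCl p)
    (v : Qb → PadicAlgCl p) (δ : ℝ) (hδ : 0 ≤ δ) (y₀ : Qb) (hy₀ : y₀ ∈ Y)
    (h : ‖u - v y₀‖ ≤ δ * (max 1 ‖u‖ * max 1 ‖v y₀‖)) :
    ∏ y ∈ Y, ‖u - v y‖ ≤ δ * ∏ y ∈ Y, (max 1 ‖u‖ * max 1 ‖v y‖) := by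
  classical
  rw [← Finset.mul_prod_erase Y _ hy₀, ← Finset.mul_prod_erase Y _ hy₀, ← mul_assoc]
  apply mul_le_mul h _ (Finset.prod_nonneg fun _ _ => norm_nonneg _) (by positivity)
  apply Finset.prod_le_prod (fun _ _ => norm_nonneg _)
  intro y _
  apply norm_sub_le_of
  · calc ‖u‖ ≤ max 1 ‖u‖ := le_max_right _ _
      _ ≤ max 1 ‖u‖ * max 1 ‖v y‖ := le_mul_of_one_le_right (by positivity) (le_max_left _ _)
  · calc ‖v y‖ ≤ max 1 ‖v y‖ := le_max_right _ _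
      _ ≤ max 1 ‖u‖ * max 1 ‖v y‖ := le_mul_of_one_le_left (by positivity) (le_max_left _ _)

theorem glf : S_POW → S_HT → S_GLF := by
  classical
  intro hPOW hHT p _ φ κ D n₁
  have hp : p.Prime := Fact.out
  have hpR : (0 : ℝ) < p := by exact_mod_cast hp.pos
  have hp1 : (1 : ℝ) < p := by exact_mod_cast hp.one_lt
  have hlogp : 0 < Real.log p := Real.log_pos hp1
  have hlog2 : 0 < Real.log 2 := Real.log_pos (by norm_num)
  obtain ⟨C, hC⟩ := hPOW p (n₁ * D)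
  obtain ⟨k, hk1, hk2⟩ : ∃ k : ℕ, (κ : ℝ) * D * (1 + Real.log 2) < ((k : ℝ) - C) * Real.log p ∧
      C ≤ k := by
    obtain ⟨j, hj⟩ := exists_nat_gt ((κ : ℝ) * D * (1 + Real.log 2) / Real.log p)
    refine ⟨j + C, ?_, by omega⟩
    rw [div_lt_iff₀ hlogp] at hj
    push_cast
    rw [add_sub_cancel_right]
    exact hj
  have hcpos : (0 : ℝ) < 1 / ((p : ℝ) ^ k * ((p : ℝ) ^ n₁ + 1)) := by positivity
  refine ⟨1 / ((p : ℝ) ^ k * ((p : ℝ) ^ n₁ + 1)), hcpos, ?_⟩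
  intro K E σ a β hK hκ hE hKE hN hσ hcomm ha ha' hfrob hβ hD hht
  by_cases h0 : ht β = 0
  · exact tor_of_ht_zero β hβ h0
  exfalso
  have hhpos : 0 < ht β := lt_of_le_of_ne (ht_nonneg β) (Ne.symm h0)
  set Y := (orb_finite E β).toFinset with hY
  have hYcard : Y.card = (orb E β).ncard := (Set.ncard_eq_toFinset_card _ _).symm
  have hYD : Y.card ≤ D := by rw [hYcard]; exact hD
  have hβY : β ∈ Y := by rw [hY, Set.Finite.mem_toFinset]; exact self_mem_orb E β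
  have hco : ∀ j, (∏ y ∈ Y, (X - Polynomial.C y)).coeff j ∈ E := by
    intro j
    rw [hY, ← minpoly_map_eq_oprod, coeff_map]
    exact ((minpoly E β).coeff j).2
  obtain ⟨M, hMf, hMs, hEM, hsM, T, hT1, hT2⟩ := exists_big K E hE hKE (insert β (Y ∪ Y.image σ))
  have hβM : β ∈ M := hsM β (Finset.mem_insert_self _ _)
  have hσM : ∀ y ∈ Y, σ y ∈ M := fun y hy => hsM _ (Finset.mem_insert_of_mem
    (Finset.mem_union_right _ (Finset.mem_image_of_mem _ hy)))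
  set e := (Finset.equivFin Y).symm with he
  set u : Fin Y.card → M := fun _ => ⟨(β ^ (p ^ a)) ^ (p ^ k), pow_mem (pow_mem hβM _) _⟩ with hu
  set v : Fin Y.card → M := fun s => ⟨(σ (e s : Qb)) ^ (p ^ k), pow_mem (hσM _ (e s).2) _⟩ with hv
  have hhty : ∀ y ∈ Y, ht y = ht β := by
    intro y hy
    rw [hY, Set.Finite.mem_toFinset] at hy
    obtain ⟨τ, -, rfl⟩ := hy
    exact ht_conj τ β
  have hhu : ∀ s, ht (u s : Qb) = (p : ℝ) ^ k * ((p : ℝ) ^ a * ht β) := by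
    intro s
    show ht ((β ^ (p ^ a)) ^ (p ^ k)) = _
    rw [ht_pow, ht_pow]
    push_cast
    ring
  have hhv : ∀ s, ht (v s : Qb) = (p : ℝ) ^ k * ht β := by
    intro s
    show ht ((σ (e s : Qb)) ^ (p ^ k)) = _
    rw [ht_pow, ht_conj, hhty _ (e s).2]
    push_cast
    ring
  have huv : ∀ s, u s ≠ v s := by
    intro s hs
    have h1 : ht (u s : Qb) = ht (v s : Qb) := by rw [hs]
    rw [hhu s, hhv s] at h1
    have h2 : (p : ℝ) ^ a * ht β = ht β := mul_left_cancel₀ (by positivity) h1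
    have h3 : (1 : ℝ) < (p : ℝ) ^ a := one_lt_pow₀ hp1 (by omega)
    have h4 : ht β < (p : ℝ) ^ a * ht β := lt_mul_of_one_lt_left hhpos h3
    linarith
  set δ : ℝ := (p : ℝ) ^ C / (p : ℝ) ^ k with hδ
  have hδ0 : 0 < δ := by positivity
  have hδ1 : δ ≤ 1 := by
    rw [hδ, div_le_one (by positivity)]
    exact pow_le_pow_right₀ hp1.le hk2
  have hmain := hHT p φ M hMf hMs Y.card u v huv T δ hδ0 hδ1 (by
    intro τ hτ
    obtain ⟨t, ht1, ht2⟩ := hT2 τ hτ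
    set ψ : Qb →+* PadicAlgCl p := φ.comp (t : Qb →+* Qb) with hψ
    have hψE : ∀ x ∈ E, ‖ψ x‖ ≤ 1 → ‖ψ (σ x - x ^ (p ^ a))‖ ^ n₁ ≤ (p : ℝ)⁻¹ := by
      intro x hx hx1
      have h1 := hfrob (t x) (hN t ht1 x hx) hx1
      have h2 : ψ (σ x - x ^ (p ^ a)) = φ (σ (t x) - (t x) ^ (p ^ a)) := by
        rw [← hcomm t ht1 x hx, ← map_pow, ← map_sub]
        rfl
      rw [h2]
      exact h1
    obtain ⟨y₀, hy₀, hclose⟩ := exists_close ψ σ E a n₁ D (lt_of_lt_of_le ha ha') Y hYD hco β hβY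
      hψE
    have hpow := (hC k).2 (ψ β ^ (p ^ a)) (ψ (σ y₀)) hclose
    have hclose2 : ‖(ψ β ^ (p ^ a)) ^ (p ^ k) - ψ (σ y₀) ^ (p ^ k)‖ ≤
        δ * (max 1 ‖(ψ β ^ (p ^ a)) ^ (p ^ k)‖ * max 1 ‖ψ (σ y₀) ^ (p ^ k)‖) := by
      rw [norm_pow, norm_pow (ψ (σ y₀)), ← max_one_pow _ (norm_nonneg _),
        ← max_one_pow _ (norm_nonneg _), ← mul_pow, hδ, div_mul_eq_mul_div,
        le_div_iff₀ (by positivity)]
      exact hpow
    have hpb := prod_bound Y ((ψ β ^ (p ^ a)) ^ (p ^ k)) (fun y => ψ (σ y) ^ (p ^ k)) δ hδ0.le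
      y₀ hy₀ hclose2
    have hτu : ∀ s, φ ((τ (u s) : M) : Qb) = (ψ β ^ (p ^ a)) ^ (p ^ k) := by
      intro s
      rw [← ht2 (u s)]
      show φ (t ((β ^ (p ^ a)) ^ (p ^ k))) = (φ (t β) ^ (p ^ a)) ^ (p ^ k)
      rw [map_pow, map_pow, map_pow, map_pow]
    have hτv : ∀ s, φ ((τ (v s) : M) : Qb) = ψ (σ (e s : Qb)) ^ (p ^ k) := by
      intro s
      rw [← ht2 (v s)]
      show φ (t ((σ (e s : Qb)) ^ (p ^ k))) = (φ (t (σ (e s : Qb)))) ^ (p ^ k)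
      rw [map_pow, map_pow]
    have e1 : ∏ s, ‖φ ((τ (u s) : M) - (τ (v s) : M) : Qb)‖ =
        ∏ y ∈ Y, ‖(ψ β ^ (p ^ a)) ^ (p ^ k) - ψ (σ y) ^ (p ^ k)‖ := by
      rw [← Finset.prod_coe_sort Y]
      rw [← Equiv.prod_comp e]
      apply Finset.prod_congr rfl
      intro s _
      rw [map_sub, hτu s, hτv s]
    have e2 : ∏ s, (max 1 ‖φ ((τ (u s) : M) : Qb)‖ * max 1 ‖φ ((τ (v s) : M) : Qb)‖) =
        ∏ y ∈ Y, (max 1 ‖(ψ β ^ (p ^ a)) ^ (p ^ k)‖ * max 1 ‖ψ (σ y) ^ (p ^ k)‖) := by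
      rw [← Finset.prod_coe_sort Y]
      rw [← Equiv.prod_comp e]
      apply Finset.prod_congr rfl
      intro s _
      rw [hτu s, hτv s]
    rw [e1, e2]
    exact hpb)
  have hlogδ : -Real.log δ = ((k : ℝ) - C) * Real.log p := by
    rw [hδ, Real.log_div (by positivity) (by positivity), Real.log_pow, Real.log_pow]
    ring
  rw [hlogδ, hT1] at hmain
  simp only [hhu, hhv] at hmain
  rw [Finset.sum_const, Finset.card_univ, Fintype.card_fin, nsmul_eq_mul] at hmain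
  have hTpos : (0 : ℝ) < T.card := by
    have h1 : 0 < Module.finrank ℚ M := Module.finrank_pos
    rw [hT1] at h1
    exact_mod_cast Nat.pos_of_mul_pos_left h1
  push_cast at hmain
  have h5 : ((k : ℝ) - C) * Real.log p ≤ (Module.finrank ℚ K : ℝ) * ((Y.card : ℝ) *
      ((p : ℝ) ^ k * ((p : ℝ) ^ a * ht β) + (p : ℝ) ^ k * ht β + Real.log 2)) := by
    have h6 : (T.card : ℝ) * (((k : ℝ) - C) * Real.log p) ≤ (T.card : ℝ) *
        ((Module.finrank ℚ K : ℝ) * ((Y.card : ℝ) *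
      ((p : ℝ) ^ k * ((p : ℝ) ^ a * ht β) + (p : ℝ) ^ k * ht β + Real.log 2))) := by
      linarith
    exact le_of_mul_le_mul_left h6 hTpos
  have h7 : (p : ℝ) ^ k * ((p : ℝ) ^ a * ht β) + (p : ℝ) ^ k * ht β ≤ 1 := by
    have h8 : (p : ℝ) ^ a ≤ (p : ℝ) ^ n₁ := pow_le_pow_right₀ hp1.le ha'
    calc (p : ℝ) ^ k * ((p : ℝ) ^ a * ht β) + (p : ℝ) ^ k * ht β
        = (p : ℝ) ^ k * ((p : ℝ) ^ a + 1) * ht β := by ring
      _ ≤ (p : ℝ) ^ k * ((p : ℝ) ^ n₁ + 1) * (1 / ((p : ℝ) ^ k * ((p : ℝ) ^ n₁ + 1))) := by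
          gcongr
      _ = 1 := by
          rw [mul_one_div, div_self (by positivity)]
  have h9 : (Module.finrank ℚ K : ℝ) * ((Y.card : ℝ) *
      ((p : ℝ) ^ k * ((p : ℝ) ^ a * ht β) + (p : ℝ) ^ k * ht β + Real.log 2)) ≤
      (κ : ℝ) * ((D : ℝ) * (1 + Real.log 2)) := by
    have h10 : (Module.finrank ℚ K : ℝ) ≤ κ := by exact_mod_cast hκ
    have h11 : (Y.card : ℝ) ≤ D := by exact_mod_cast hYD
    gcongr
  linarith

end Pool.Agent.W669.RK
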